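import Pool.Agent.Lib.MP_dd45e6_gt.Main

/-! A convex polyhedron whose farthest point map is single valued.

The polyhedron has eight faces (four hexagons and four triangles, twelve vertices), with integer
outer normals `uT f`, `f < 8`, and support numbers `KT f / pT f`; see `Tab.lean`. -/

namespace Pool.Agent.Results.MP_dd45e6_gt.SingleValued
open Pool.Agent.Lib.MP_dd45e6_gt

/-- `S` is the boundary surface of a compact convex polytope (the convex hull of a finite set)
with nonempty interior in Euclidean 3-space. -/
def IsConvexPolyhedron (S : Set E) : Prop :=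
  ∃ V : Finset E, (interior (convexHull ℝ (V : Set E))).Nonempty ∧
    S = frontier (convexHull ℝ (V : Set E))

/-- The set `F(x)` of antipodes of `x`: the points of `S` at maximal intrinsic distance. -/
def antipodes (S : Set E) (x : E) : Set E :=
  {y | y ∈ S ∧ ∀ z ∈ S, idist S x z ≤ idist S x y}

/-- There is a convex polyhedron on which every point has exactly one antipode. -/
theorem result : ∃ S : Set E, IsConvexPolyhedron S ∧ ∀ x ∈ S, ∃ y, antipodes S x = {y} := by
  refine ⟨Q0.S, ⟨V0, interior_Q0, frontier_Q0.symm⟩, fun x hx => ?_⟩
  obtain ⟨y, hy, huniq⟩ := unique_antipode hx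
  refine ⟨y, ?_⟩
  ext z
  constructor
  · intro hz
    exact huniq z hz
  · intro hz
    rw [Set.mem_singleton_iff] at hz
    rw [hz]
    exact hy

end Pool.Agent.Results.MP_dd45e6_gt.SingleValued
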